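import Pool.Agent.Helper76.CV.Goals

/-!
# Project CV (MP_eec6f5_gt), packet PRA
-/

open scoped ContDiff
open Filter Topology

namespace Pool.Agent.Helper98.CV.PRA

open Pool.Agent.Helper76.CV

variable {r : ℕ}

/-- The mask of the projection. -/
noncomputable def m (A : Fin r → Bool) : Fin (r + 3) → ℝ :=
  Fin.cons 1 (Fin.cons 1 (Fin.cons 0 (fun j => if A j then (1 : ℝ) else 0)))

lemma m0 (A : Fin r → Bool) : m A 0 = 1 := rfl

lemma m1 (A : Fin r → Bool) : m A 1 = 1 := rfl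

lemma m2 (A : Fin r → Bool) : m A 2 = 0 := rfl

lemma m3 (A : Fin r → Bool) (j : Fin r) : m A j.succ.succ.succ = if A j then (1 : ℝ) else 0 := rfl

lemma msq (A : Fin r → Bool) (i : Fin (r + 3)) : m A i * m A i = m A i := by
  refine Fin.cases ?_ (fun i => ?_) i
  · rw [m0]; ring
  · refine Fin.cases ?_ (fun i => ?_) i
    · change m A 1 * m A 1 = m A 1
      rw [m1]; ring
    · refine Fin.cases ?_ (fun j => ?_) i
      · change m A 2 * m A 2 = m A 2
        rw [m2]; ring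
      · rw [m3]; split_ifs <;> ring

/-- The projection as a linear map. -/
noncomputable def PL (A : Fin r → Bool) : E (r + 3) →ₗ[ℝ] E (r + 3) where
  toFun y := WithLp.toLp 2 (fun i => m A i * y i)
  map_add' x y := by
    ext i
    simp [mul_add]
  map_smul' c x := by
    ext i
    simp only [PiLp.smul_apply, smul_eq_mul, RingHom.id_apply]
    ring

lemma PL_apply (A : Fin r → Bool) (y : E (r + 3)) (i : Fin (r + 3)) : PL A y i = m A i * y i := rfl

/-- The axis point with coordinates `x, y`. -/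
noncomputable def pt (x y : ℝ) : E (r + 3) := x • EuclideanSpace.single 0 1 + y • EuclideanSpace.single 1 1

lemma pt0 (x y : ℝ) : (pt x y : E (r + 3)) 0 = x := by
  simp [pt]

lemma pt1 (x y : ℝ) : (pt x y : E (r + 3)) 1 = y := by
  simp [pt]

lemma pt2 (x y : ℝ) : (pt x y : E (r + 3)) 2 = 0 := by
  have hv : ((2 : Fin (r + 3)) : ℕ) = 2 := Nat.mod_eq_of_lt (show 2 < r + 3 by omega)
  have h0 : (2 : Fin (r + 3)) ≠ 0 := by
    intro h
    have := congrArg Fin.val h
    rw [hv] at this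
    simp at this
  have h1 : (2 : Fin (r + 3)) ≠ 1 := by
    intro h
    have := congrArg Fin.val h
    rw [hv] at this
    simp at this
  simp [pt, h0, h1]

lemma pt3 (x y : ℝ) (j : Fin r) : (pt x y : E (r + 3)) j.succ.succ.succ = 0 := by
  have h0 : (j.succ.succ.succ : Fin (r + 3)) ≠ 0 := Fin.succ_ne_zero _
  have h1 : (j.succ.succ.succ : Fin (r + 3)) ≠ 1 := by
    intro h
    have := congrArg Fin.val h
    simp at this
  simp [pt, h0, h1]

lemma nsq (y : E (r + 3)) : ‖y‖ ^ 2 = y 0 ^ 2 + (y 1 ^ 2 + (y 2 ^ 2 + ∑ j : Fin r, y j.succ.succ.succ ^ 2)) := by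
  rw [EuclideanSpace.norm_sq_eq, Fin.sum_univ_succ, Fin.sum_univ_succ, Fin.sum_univ_succ]
  simp only [Real.norm_eq_abs, sq_abs]
  rfl

lemma norm_pt (x y : ℝ) : ‖(pt x y : E (r + 3))‖ ^ 2 = x ^ 2 + y ^ 2 := by
  rw [nsq, pt0, pt1, pt2]
  simp only [pt3]
  simp

lemma norm_pt_le (x y K : ℝ) (hK : 0 ≤ K) (h : x ^ 2 + y ^ 2 ≤ K ^ 2) : ‖(pt x y : E (r + 3))‖ ≤ K := by
  refine abs_le_of_sq_le_sq' ?_ hK |>.2
  rw [norm_pt]; exact h

lemma hasDeriv_pt (x y : ℝ → ℝ) (x' y' t : ℝ) (hx : HasDerivAt x x' t) (hy : HasDerivAt y y' t) :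
    HasDerivAt (fun t => (pt (x t) (y t) : E (r + 3))) (pt x' y') t :=
  (hx.smul_const _).add (hy.smul_const _)

theorem t : PRA := by
  intro r A θ hθ
  have hd : Differentiable ℝ θ := hθ.differentiable (by simp)
  have hθ' : ContDiff ℝ ∞ (deriv θ) := by
    have := contDiff_infty_iff_deriv.1 hθ
    exact this.2
  have hd' : Differentiable ℝ (deriv θ) := hθ'.differentiable (by simp)
  have hD1 : ∀ t, HasDerivAt (fun t => (pt (2 / 5 * Real.sin (θ t)) (2 / 5 * Real.cos (θ t)) : E (r + 3)))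
      (pt (2 / 5 * (Real.cos (θ t) * deriv θ t)) (2 / 5 * (-Real.sin (θ t) * deriv θ t))) t := by
    intro t
    have h := (hd t).hasDerivAt
    exact hasDeriv_pt _ _ _ _ _ (h.sin.const_mul (2 / 5)) (h.cos.const_mul (2 / 5))
  have hder : deriv (fun t => (pt (2 / 5 * Real.sin (θ t)) (2 / 5 * Real.cos (θ t)) : E (r + 3))) =
      fun t => pt (2 / 5 * (Real.cos (θ t) * deriv θ t)) (2 / 5 * (-Real.sin (θ t) * deriv θ t)) := by
    funext t
    exact (hD1 t).deriv
  have hD2 : ∀ t, HasDerivAt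
      (fun t => (pt (2 / 5 * (Real.cos (θ t) * deriv θ t)) (2 / 5 * (-Real.sin (θ t) * deriv θ t)) : E (r + 3)))
      (pt (2 / 5 * ((-Real.sin (θ t) * deriv θ t) * deriv θ t + Real.cos (θ t) * deriv (deriv θ) t))
        (2 / 5 * (-(Real.cos (θ t) * deriv θ t) * deriv θ t + -Real.sin (θ t) * deriv (deriv θ) t))) t := by
    intro t
    have h := (hd t).hasDerivAt
    have h' := (hd' t).hasDerivAt
    exact hasDeriv_pt _ _ _ _ _ ((h.cos.mul h').const_mul (2 / 5)) ((h.sin.neg.mul h').const_mul (2 / 5))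
  refine ⟨LinearMap.toContinuousLinearMap (PL A),
    fun t => pt (2 / 5 * Real.sin (θ t)) (2 / 5 * Real.cos (θ t)), ?_, ?_, ?_, ?_, ?_, ?_, ?_, ?_, ?_, ?_⟩
  · intro u v
    simp only [LinearMap.coe_toContinuousLinearMap', PiLp.inner_apply, PL_apply]
    refine Finset.sum_congr rfl fun i _ => ?_
    simp only [RCLike.inner_apply, conj_trivial]
    ring
  · intro u
    ext i
    simp only [LinearMap.coe_toContinuousLinearMap', PL_apply]
    rw [← mul_assoc, msq]
  · intro t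
    ext i
    simp only [LinearMap.coe_toContinuousLinearMap', PL_apply]
    refine Fin.cases ?_ (fun i => ?_) i
    · rw [m0]; ring
    · refine Fin.cases ?_ (fun i => ?_) i
      · change m A 1 * (pt _ _ : E (r + 3)) 1 = (pt _ _ : E (r + 3)) 1
        rw [m1]; ring
      · refine Fin.cases ?_ (fun j => ?_) i
        · change m A 2 * (pt _ _ : E (r + 3)) 2 = (pt _ _ : E (r + 3)) 2
          rw [pt2]; ring
        · rw [pt3]; ring
  · unfold pt
    exact ((contDiff_const.mul (Real.contDiff_sin.comp hθ)).smul contDiff_const).add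
      ((contDiff_const.mul (Real.contDiff_cos.comp hθ)).smul contDiff_const)
  · intro t
    have h := norm_pt (r := r) (2 / 5 * Real.sin (θ t)) (2 / 5 * Real.cos (θ t))
    have h2 : (2 / 5 * Real.sin (θ t)) ^ 2 + (2 / 5 * Real.cos (θ t)) ^ 2 = (2 / 5) ^ 2 := by
      nlinarith [Real.sin_sq_add_cos_sq (θ t)]
    rw [h2] at h
    have h3 := (sq_eq_sq₀ (norm_nonneg _) (by norm_num : (0 : ℝ) ≤ 2 / 5)).1 h
    exact h3
  · intro t y
    rw [nsq]
    simp only [LinearMap.coe_toContinuousLinearMap', PiLp.sub_apply, PL_apply, pt0, pt1, pt2, pt3, m0, m1, m2, m3]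
    have h : ∀ j : Fin r, ((if A j then (1 : ℝ) else 0) * y j.succ.succ.succ - 0) ^ 2 =
        (if A j then (1 : ℝ) else 0) * (y j.succ.succ.succ) ^ 2 := by
      intro j; split_ifs <;> ring
    simp only [h]
    ring
  · intro t y
    have h := PiLp.norm_apply_le (LinearMap.toContinuousLinearMap (PL A) y -
      (pt (2 / 5 * Real.sin (θ t)) (2 / 5 * Real.cos (θ t)) : E (r + 3))) 0
    simp only [LinearMap.coe_toContinuousLinearMap', PiLp.sub_apply, PL_apply, pt0, m0, one_mul, Real.norm_eq_abs] at h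
    exact h
  · intro t
    rw [hder]
    refine norm_pt_le _ _ _ (by positivity) ?_
    have h1 : (2 / 5 * |deriv θ t|) ^ 2 = (2 / 5) ^ 2 * (deriv θ t) ^ 2 := by rw [mul_pow, sq_abs]
    rw [h1]
    nlinarith [Real.sin_sq_add_cos_sq (θ t)]
  · intro t
    rw [hder, (hD2 t).deriv]
    refine norm_pt_le _ _ _ (by positivity) ?_
    have h0 : 0 ≤ |deriv (deriv θ) t| := abs_nonneg _
    have h1 : |deriv (deriv θ) t| ^ 2 = (deriv (deriv θ) t) ^ 2 := sq_abs _
    have h2 : 0 ≤ |deriv (deriv θ) t| * deriv θ t ^ 2 := by positivity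
    have h3 := Real.sin_sq_add_cos_sq (θ t)
    have h4 : (2 / 5 * ((-Real.sin (θ t) * deriv θ t) * deriv θ t + Real.cos (θ t) * deriv (deriv θ) t)) ^ 2 +
        (2 / 5 * (-(Real.cos (θ t) * deriv θ t) * deriv θ t + -Real.sin (θ t) * deriv (deriv θ) t)) ^ 2 =
        (2 / 5) ^ 2 * ((Real.sin (θ t) ^ 2 + Real.cos (θ t) ^ 2) * (deriv θ t ^ 4 + deriv (deriv θ) t ^ 2)) := by ring
    rw [h4, h3]
    nlinarith
  · intro t ht
    have hc : (fun t => (pt (2 / 5 * Real.sin (θ t)) (2 / 5 * Real.cos (θ t)) : E (r + 3))) =ᶠ[𝓝 t]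
        fun _ => pt (2 / 5 * 0) (2 / 5 * -1) := by
      filter_upwards [ht] with u hu
      rw [hu.1, hu.2]
    have hc' := hc.deriv
    have h0 : deriv (fun _ : ℝ => (pt (2 / 5 * 0) (2 / 5 * -1) : E (r + 3))) = fun _ => 0 := by
      funext u; exact deriv_const _ _
    rw [h0] at hc'
    refine ⟨hc'.eq_of_nhds, ?_⟩
    have := hc'.deriv.eq_of_nhds
    rw [this]
    exact deriv_const _ _

end Pool.Agent.Helper98.CV.PRA
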